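import Mathlib

open Set Polynomial

namespace Pool.Agent.Results.MP_6bd959_co.Bounded

/-- The plane. -/
abbrev Plane : Type := EuclideanSpace ℝ (Fin 2)

/-- The family of translates `P + x i` is an `m`-fold covering of `S`. -/
def IsFoldCover (P S : Set Plane) (m : ℕ) {ι : Type} (x : ι → Plane) : Prop :=
  ∀ y ∈ S, (m : ℕ∞) ≤ {i | y - x i ∈ P}.encard

/-- The family of translates `P + x i` splits into two coverings of `S`. -/
def Decomposes (P S : Set Plane) {ι : Type} (x : ι → Plane) : Prop :=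
  ∃ T : Set ι, (∀ y ∈ S, ∃ i ∈ T, y - x i ∈ P) ∧ (∀ y ∈ S, ∃ i ∉ T, y - x i ∈ P)

def CoverDecomposable (P : Set Plane) : Prop :=
  ∃ m : ℕ, 2 ≤ m ∧ ∀ (ι : Type) (x : ι → Plane), IsFoldCover P univ m x → Decomposes P univ x

def TotallyCoverDecomposable (P : Set Plane) : Prop :=
  ∃ m : ℕ, 2 ≤ m ∧ ∀ (S : Set Plane) (ι : Type) (x : ι → Plane),
    IsFoldCover P S m x → Decomposes P S x

theorem sdr {κ ι : Type} [Countable κ] (A : κ → Set ι) (hA : ∀ k, (A k).Infinite) :
    ∃ f : κ → ι, Function.Injective f ∧ ∀ k, f k ∈ A k := by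
  classical
  obtain ⟨e, he⟩ := exists_injective_nat κ
  choose t ht htc using fun k => (hA k).exists_subset_card_eq (e k + 1)
  obtain ⟨f, hf, hft⟩ := (Finset.all_card_le_biUnion_card_iff_exists_injective t).1 (by
    intro S
    rcases S.eq_empty_or_nonempty with rfl | hS
    · simp
    obtain ⟨k, hk, hmax⟩ := S.exists_max_image e hS
    calc S.card ≤ (Finset.range (e k + 1)).card :=
          Finset.card_le_card_of_injOn e
            (fun a ha => Finset.mem_coe.2 (Finset.mem_range.2 (Nat.lt_succ_of_le (hmax a ha))))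
            he.injOn
      _ = (t k).card := by rw [Finset.card_range, htc]
      _ ≤ _ := Finset.card_le_card (Finset.subset_biUnion_of_mem t hk))
  exact ⟨f, hf, fun k => ht k (hft k)⟩

def NN (p : ℚ[X]) : Prop := ∀ n, 1 ≤ n → 0 ≤ p.coeff n

theorem NN.add {p q : ℚ[X]} (hp : NN p) (hq : NN q) : NN (p + q) := fun n hn => by
  rw [coeff_add]; exact add_nonneg (hp n hn) (hq n hn)

theorem NN_C (r : ℚ) : NN (C r) := fun n hn => by
  rw [coeff_C, if_neg (by omega)]

theorem NN_mono (n : ℕ) {a : ℚ} (ha : 0 ≤ a) : NN (monomial n a) := fun m _ => by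
  rw [coeff_monomial]; split_ifs <;> simp [ha]

theorem NN_split (q : ℚ[X]) : ∃ u v, NN u ∧ NN v ∧ q = u - v := by
  induction q using Polynomial.induction_on' with
  | add p q hp hq =>
    obtain ⟨u, v, h1, h2, rfl⟩ := hp
    obtain ⟨u', v', h1', h2', rfl⟩ := hq
    exact ⟨u + u', v + v', h1.add h1', h2.add h2', by ring⟩
  | monomial n a =>
    rcases le_total 0 a with h | h
    · exact ⟨_, monomial n 0, NN_mono n h, NN_mono n le_rfl, by simp⟩
    · exact ⟨monomial n 0, monomial n (-a), NN_mono n le_rfl, NN_mono n (by linarith), by simp⟩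

def PP (θ : ℝ) : Set Plane :=
  {v | v 1 = 0 ∧ 0 ≤ v 0 ∧ v 0 ≤ 1 ∧ ∃ p, NN p ∧ v 0 = aeval θ p}

/-- same coset -/
def Rel (θ : ℝ) (y y' : Plane) : Prop := y 1 = y' 1 ∧ ∃ q : ℚ[X], y' 0 - y 0 = aeval θ q

theorem Rel.symm {θ : ℝ} {y y' : Plane} (h : Rel θ y y') : Rel θ y' y := by
  obtain ⟨h1, q, hq⟩ := h
  exact ⟨h1.symm, -q, by rw [map_neg, ← hq]; ring⟩

theorem Rel.trans {θ : ℝ} {x y z : Plane} (h : Rel θ x y) (h' : Rel θ y z) : Rel θ x z := by
  obtain ⟨h1, q, hq⟩ := h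
  obtain ⟨h2, q', hq'⟩ := h'
  exact ⟨h1.trans h2, q + q', by rw [map_add, ← hq, ← hq']; ring⟩

theorem Rel.refl (θ : ℝ) (x : Plane) : Rel θ x x := ⟨rfl, 0, by simp⟩

theorem rel_of_mem {θ : ℝ} {x y : Plane} (h : y - x ∈ PP θ) : Rel θ x y := by
  obtain ⟨h1, -, -, p, -, hp⟩ := h
  exact ⟨by simp at h1; linarith, p, by simpa using hp⟩

section
variable {θ : ℝ} (g : ℝ →ₗ[ℚ] ℚ[X]) (hg : ∀ p : ℚ[X], g (aeval θ p) = p)
include hg

theorem two_finite {ι : Type} (x : ι → Plane) (hx : ∀ y, ∃ i, y - x i ∈ PP θ) {y y' : Plane}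
    (hr : Rel θ y y') (h1 : y 0 < y' 0) (h2 : y' 0 ≤ y 0 + 1)
    (hy : {i | y - x i ∈ PP θ}.Finite) (hy' : {i | y' - x i ∈ PP θ}.Finite) : False := by
  obtain ⟨e1, q, hq⟩ := hr
  obtain ⟨u, v, hu, hv, rfl⟩ := NN_split q
  obtain ⟨K0, hK0⟩ := ((hy.union hy').image fun i => (g (y 0 - x i 0)).coeff 1).bddAbove
  set K := |K0| + 1 with hK
  have hKp : 0 ≤ K := by positivity
  obtain ⟨r, hr1, hr2⟩ := exists_rat_btwn
    (show aeval θ (v + monomial 1 K) < aeval θ (v + monomial 1 K) + (y' 0 - y 0) by linarith)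
  set w : ℚ[X] := v + monomial 1 K + C (-r) with hw
  have hwv : aeval θ w = aeval θ (v + monomial 1 K) - r := by
    rw [hw, map_add _ (v + monomial 1 K), aeval_C]; simp; ring
  have hwN : NN w := (hv.add (NN_mono 1 hKp)).add (NN_C _)
  obtain ⟨i, a1, a2, a3, p, hp, a4⟩ := hx (!₂[y 0 - aeval θ w, y 1])
  simp only [PiLp.sub_apply, Matrix.cons_val_zero, Matrix.cons_val_one] at a1 a2 a3 a4
  have hi : i ∈ {i | y - x i ∈ PP θ} ∪ {i | y' - x i ∈ PP θ} := by
    rcases le_total (x i 0) (y 0) with h | h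
    · left
      refine ⟨by simpa using a1, by simpa using h, by simp; linarith, p + w, hp.add hwN, ?_⟩
      rw [map_add, ← a4, PiLp.sub_apply]; ring
    · right
      refine ⟨by simpa [← e1] using a1, by simp; linarith, by simp; linarith,
        p + (u + monomial 1 K + C (-r)), hp.add ((hu.add (NN_mono 1 hKp)).add (NN_C _)), ?_⟩
      have : u + monomial 1 K + C (-r) = (u - v) + w := by rw [hw]; ring
      rw [this, map_add, map_add, ← a4, ← hq, PiLp.sub_apply]; ring
  have b1 : (g (y 0 - x i 0)).coeff 1 ≤ K0 := hK0 ⟨i, hi, rfl⟩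
  have b2 : y 0 - x i 0 = aeval θ (p + w) := by rw [map_add, ← a4]; ring
  rw [b2, hg, hw] at b1
  simp only [coeff_add, coeff_monomial, if_true, coeff_C] at b1
  have := hp 1 le_rfl
  have := hv 1 le_rfl
  have := le_abs_self K0
  simp at b1
  linarith

theorem decomp {ι : Type} (x : ι → Plane) (hx : IsFoldCover (PP θ) univ 2 x) :
    Decomposes (PP θ) univ x := by
  classical
  set A : Plane → Set ι := fun y => {i | y - x i ∈ PP θ} with hA
  have h2 : ∀ y, ∃ a b, a ∈ A y ∧ b ∈ A y ∧ a ≠ b := fun y =>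
    one_lt_encard_iff.1 (lt_of_lt_of_le (by norm_num) (hx y trivial))
  choose ra rb hra hrb hab using h2
  have hx1 : ∀ y, ∃ i, y - x i ∈ PP θ := fun y => ⟨ra y, hra y⟩
  have close : ∀ y y', (A y).Finite → (A y').Finite → Rel θ y y' → |y 0 - y' 0| ≤ 1 → y = y' := by
    intro y y' hy hy' hr hd
    rw [abs_le] at hd
    rcases lt_trichotomy (y 0) (y' 0) with h | h | h
    · exact (two_finite g hg x hx1 hr h (by linarith) hy hy').elim
    · ext j; fin_cases j
      · exact h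
      · exact hr.1
    · exact (two_finite g hg x hx1 hr.symm h (by linarith) hy' hy).elim
  have share : ∀ y y' i, i ∈ A y → i ∈ A y' → Rel θ y y' ∧ |y 0 - y' 0| ≤ 1 := by
    intro y y' i hi hi'
    refine ⟨(rel_of_mem hi).symm.trans (rel_of_mem hi'), ?_⟩
    obtain ⟨-, a, b, -⟩ := hi
    obtain ⟨-, c, d, -⟩ := hi'
    simp only [PiLp.sub_apply] at a b c d
    rw [abs_le]; constructor <;> linarith
  set B : Plane → Set ι := fun y => A y \ ⋃ y' ∈ {y' | (A y').Finite}, A y' with hB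
  have hBinf : ∀ y, (A y).Infinite → (B y).Infinite := by
    intro y hy
    have hF : {y' | (A y').Finite ∧ Rel θ y y' ∧ |y 0 - y' 0| ≤ 1}.Finite := by
      have s1 : {y' | (A y').Finite ∧ Rel θ y y' ∧ |y 0 - y' 0| ≤ 1 ∧ y' 0 ≤ y 0}.Subsingleton := by
        rintro a ⟨a1, a2, a3, a4⟩ b ⟨b1, b2, b3, b4⟩
        rw [abs_le] at a3 b3
        exact close a b a1 b1 (a2.symm.trans b2) (by rw [abs_le]; constructor <;> linarith)
      have s2 : {y' | (A y').Finite ∧ Rel θ y y' ∧ |y 0 - y' 0| ≤ 1 ∧ y 0 ≤ y' 0}.Subsingleton := by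
        rintro a ⟨a1, a2, a3, a4⟩ b ⟨b1, b2, b3, b4⟩
        rw [abs_le] at a3 b3
        exact close a b a1 b1 (a2.symm.trans b2) (by rw [abs_le]; constructor <;> linarith)
      refine (s1.finite.union s2.finite).subset ?_
      rintro a ⟨a1, a2, a3⟩
      rcases le_total (a 0) (y 0) with h | h
      · exact Or.inl ⟨a1, a2, a3, h⟩
      · exact Or.inr ⟨a1, a2, a3, h⟩
    refine (hy.diff (hF.biUnion (t := A) fun y' h => h.1)).mono ?_
    rintro i ⟨hi, hi'⟩
    refine ⟨hi, fun h => hi' ?_⟩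
    simp only [mem_iUnion] at h ⊢
    obtain ⟨y', h1, h2⟩ := h
    exact ⟨y', ⟨h1, share y y' i hi h2⟩, h2⟩
  let st : Setoid Plane := ⟨Rel θ, Rel.refl θ, Rel.symm, Rel.trans⟩
  have hc : ∀ c : Quotient st, ∃ f : {y // Quotient.mk st y = c ∧ (A y).Infinite} × Bool → ι,
      Function.Injective f ∧ ∀ k, f k ∈ B k.1 := by
    intro c
    haveI : Countable ℚ[X] := by
      rw [← Cardinal.mk_le_aleph0_iff]
      exact Polynomial.cardinalMk_le_max.trans (by simp)
    haveI : Countable {y // Quotient.mk st y = c ∧ (A y).Infinite} := by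
      refine Function.Injective.countable (f := fun y => g (y.1 0 - c.out 0)) ?_
      rintro ⟨a, ha, ha'⟩ ⟨b, hb, hb'⟩ h
      obtain ⟨a1, p, hp⟩ : Rel θ c.out a := Quotient.exact ((Quotient.out_eq c).trans ha.symm)
      obtain ⟨b1, q, hq⟩ : Rel θ c.out b := Quotient.exact ((Quotient.out_eq c).trans hb.symm)
      simp only [hp, hq, hg] at h
      subst h
      ext j; fin_cases j
      · simp; linarith
      · simp; linarith
    exact sdr _ fun k => hBinf _ k.1.2.2
  choose f hf hfB using hc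
  refine ⟨{i | (∃ y, (A y).Finite ∧ i = ra y) ∨ ∃ c k, i = f c (k, true)}, fun y _ => ?_,
    fun y _ => ?_⟩
  · rcases (A y).finite_or_infinite with h | h
    · exact ⟨ra y, Or.inl ⟨y, h, rfl⟩, hra y⟩
    · exact ⟨f _ (⟨y, rfl, h⟩, true), Or.inr ⟨_, _, rfl⟩, (hfB _ (⟨y, rfl, h⟩, true)).1⟩
  · rcases (A y).finite_or_infinite with h | h
    · refine ⟨rb y, ?_, hrb y⟩
      rintro (⟨y', h', e⟩ | ⟨c, k, e⟩)
      · obtain ⟨s1, s2⟩ := share y y' _ (hrb y) (e ▸ hra y')
        obtain rfl := close y y' h h' s1 s2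
        exact hab y e.symm
      · exact (hfB c (k, true)).2 (mem_biUnion (s := {y' | (A y').Finite}) h (e ▸ hrb y))
    · refine ⟨f _ (⟨y, rfl, h⟩, false), ?_, (hfB _ (⟨y, rfl, h⟩, false)).1⟩
      rintro (⟨y', h', e⟩ | ⟨c, k, e⟩)
      · exact (hfB _ (⟨y, rfl, h⟩, false)).2
          (mem_biUnion (s := {y' | (A y').Finite}) h' (e ▸ hra y'))
      · have s1 := (share y k.1 _ (hfB _ (⟨y, rfl, h⟩, false)).1 (e ▸ (hfB c (k, true)).1)).1
        have : c = Quotient.mk st y := k.2.1.symm.trans (Quotient.sound s1.symm)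
        subst this
        simpa using hf _ e

theorem not_total (h0 : 0 < θ) (h1 : θ < 1 / 2) : ¬ TotallyCoverDecomposable (PP θ) := by
  classical
  rintro ⟨m, hm, H⟩
  set s : Finset (Fin (2 * m - 1)) → Plane := fun e => !₂[∑ j ∈ e, θ ^ (j.1 + 1), 0] with hs
  set x : Fin (2 * m - 1) → Plane := fun j => !₂[θ ^ (j.1 + 1), 0] with hx
  have key : ∀ e j, s e - x j ∈ PP θ ↔ j ∈ e := by
    intro e j
    constructor
    · rintro ⟨-, -, -, p, hp, he⟩
      by_contra hj
      have e1 : (s e - x j) 0 = aeval θ (∑ i ∈ e, X ^ (i.1 + 1) - X ^ (j.1 + 1) : ℚ[X]) := by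
        simp [hs, hx]
      have e2 := congrArg g (e1.symm.trans he)
      rw [hg, hg] at e2
      have := hp (j.1 + 1) (by omega)
      rw [← e2, coeff_sub, finset_sum_coeff, Finset.sum_eq_zero] at this
      · norm_num at this
      · intro i hi
        rw [coeff_X_pow, if_neg]
        intro h
        exact hj (by rwa [show j = i from Fin.ext (by omega)])
    · intro hj
      have e1 : (s e - x j) 0 = ∑ i ∈ e.erase j, θ ^ (i.1 + 1) := by
        simp only [hs, hx, PiLp.sub_apply, Matrix.cons_val_zero]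
        rw [← Finset.add_sum_erase e _ hj]; ring
      refine ⟨by simp [hs, hx], ?_, ?_, ∑ i ∈ e.erase j, X ^ (i.1 + 1), ?_, by simp [e1]⟩
      · rw [e1]; positivity
      · rw [e1]
        calc _ ≤ ∑ i : Fin (2 * m - 1), (1 / 2 : ℝ) ^ (i.1 + 1) :=
              (Finset.sum_le_sum fun i _ => pow_le_pow_left₀ h0.le h1.le _).trans
                (Finset.sum_le_sum_of_subset_of_nonneg (Finset.subset_univ _)
                  fun _ _ _ => by positivity)
          _ = 1 / 2 * ∑ i ∈ Finset.range (2 * m - 1), (1 / 2 : ℝ) ^ i := by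
              rw [Finset.mul_sum, Finset.sum_range]
              exact Finset.sum_congr rfl fun _ _ => by ring
          _ ≤ 1 := by linarith [sum_geometric_two_le (2 * m - 1)]
      · intro n _
        rw [finset_sum_coeff]
        exact Finset.sum_nonneg fun i _ => by rw [coeff_X_pow]; split_ifs <;> norm_num
  obtain ⟨T, h1, h2⟩ := H (s '' {e | e.card = m}) _ x (by
    rintro _ ⟨e, he, rfl⟩
    have : {i | s e - x i ∈ PP θ} = (e : Set _) := by ext i; simp [key]
    rw [this, encard_coe_eq_coe_finsetCard, he])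
  have hc := Finset.card_filter_add_card_filter_not (s := Finset.univ) (fun i => i ∈ T)
  simp only [Finset.card_univ, Fintype.card_fin] at hc
  rcases le_or_gt m (Finset.univ.filter fun i => i ∈ T).card with h | h
  · obtain ⟨e, he, hec⟩ := Finset.exists_subset_card_eq h
    obtain ⟨i, hi, hi'⟩ := h2 _ ⟨e, hec, rfl⟩
    exact hi (Finset.mem_filter.1 (he ((key _ _).1 hi'))).2
  · obtain ⟨e, he, hec⟩ := Finset.exists_subset_card_eq
      (show m ≤ (Finset.univ.filter fun i => ¬ i ∈ T).card by omega)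
    obtain ⟨i, hi, hi'⟩ := h1 _ ⟨e, hec, rfl⟩
    exact (Finset.mem_filter.1 (he ((key _ _).1 hi'))).2 hi

end

theorem result :
    ∃ P : Set Plane, Bornology.IsBounded P ∧ CoverDecomposable P ∧ ¬ TotallyCoverDecomposable P := by
  obtain ⟨θ, ⟨h0, h1⟩, hθ⟩ : ∃ θ ∈ Ioo (0 : ℝ) (1 / 2), Transcendental ℚ θ := by
    by_contra h
    push Not at h
    have := ((Algebraic.countable ℚ ℝ).mono (s₁ := Ioo (0 : ℝ) (1 / 2))
      fun θ hθ => not_not.1 (h θ hθ)).measure_zero MeasureTheory.volume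
    simp at this
  obtain ⟨g, hg⟩ := LinearMap.exists_leftInverse_of_injective (aeval θ : ℚ[X] →ₐ[ℚ] ℝ).toLinearMap
    (LinearMap.ker_eq_bot.2 (transcendental_iff_injective.1 hθ))
  have hg' : ∀ p : ℚ[X], g (aeval θ p) = p := fun p => LinearMap.congr_fun hg p
  refine ⟨PP θ, ?_, ⟨2, le_rfl, fun ι x hx => decomp g hg' x hx⟩, not_total g hg' h0 h1⟩
  refine (Metric.isBounded_closedBall (x := 0) (r := 1)).subset ?_
  rintro v ⟨a, b, c, -⟩
  rw [mem_closedBall_zero_iff, EuclideanSpace.norm_eq, Fin.sum_univ_two, a, Real.sqrt_le_one]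
  simp only [Real.norm_eq_abs, sq_abs]
  nlinarith

end Pool.Agent.Results.MP_6bd959_co.Bounded
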